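import Pool.Agent.helper96.S5.SpecV

/-! Row s5:LBV (MP_0b485e_lc): values for the label sets -/

set_option autoImplicit false

namespace S5

open PF

noncomputable section

open Classical

/-- an element is processed only once -/
theorem LBV_once (B : BD) (k u u' : ℕ) (h : B.prc k u) (h' : B.prc k u')
    (he : u.unpair.2 = u'.unpair.2) : u = u' := by
  have h1 : u.unpair.1 = u'.unpair.1 := by
    rcases lt_trichotomy u.unpair.1 u'.unpair.1 with hlt | heq | hgt
    · exact absurd (he ▸ h.1) (h'.2 _ hlt)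
    · exact heq
    · exact absurd (he.symm ▸ h'.1) (h.2 _ hgt)
  rw [← Nat.pair_unpair u, ← Nat.pair_unpair u', h1, he]

theorem LBV_inf (X : Cx) (hX : X.Ok) (k : ℕ) (g : List ℕ) (l : ℕ)
    (h : ∀ u0, ∃ u, u0 ≤ u ∧ X.B.fit k u g l) (S : Set ℕ) (hS : S.Finite) :
    ∃ u, X.B.fit k u g l ∧ Nat.pair k (X.f u.unpair.2) ∉ S := by
  by_contra hcon
  have hcon' : ∀ u, X.B.fit k u g l → Nat.pair k (X.f u.unpair.2) ∈ S := by
    intro u hu
    by_contra hn
    exact hcon ⟨u, hu, hn⟩
  have hinf : {u | X.B.fit k u g l}.Infinite := by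
    rw [Set.infinite_iff_exists_gt]
    intro a
    obtain ⟨u, hu, hf⟩ := h (a + 1)
    exact ⟨u, hf, by omega⟩
  have hinj : Set.InjOn (fun u => Nat.pair k (X.f u.unpair.2)) {u | X.B.fit k u g l} := by
    intro u hu u' hu' he
    have e1 := (Nat.pair_eq_pair.1 he).2
    exact LBV_once X.B k u u' hu.1.1 hu'.1.1 (hX.fi e1)
  exact Set.infinite_of_injOn_mapsTo hinj (fun u hu => hcon' u hu) hinf hS

theorem LBV_row (hCNC : CNC_stmt) (_hGDD : GDD_stmt) : LBV_stmt := by
  intro X hX x x' i hrep k g l hRS hi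
  obtain ⟨a, a', hia, hcov, hs1, hs2⟩ := hrep
  have hC : X.B.C i k := by
    rw [hia]
    exact ((hCNC X k).2.1 a a').2 (hcov k)
  have hne : ent g i ≠ 0 := (hRS.1 i hi).2 hC
  obtain ⟨u, hfit, hu⟩ := LBV_inf X hX k g l hRS.2.1 _ (hs1.union hs2)
  have hv := hfit.2 i hi
  have hu1 : Nat.pair k (X.f u.unpair.2) ∉ symmDiff x.1 {z | We a z} := fun h => hu (Or.inl h)
  have hu2 : Nat.pair k (X.f u.unpair.2) ∉ symmDiff x'.1 {z | We a' z} := fun h => hu (Or.inr h)
  have hd : X.dcD i k u.unpair.2 u.unpair.1 = ent g i := by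
    unfold BD.vl at hv
    split_ifs at hv with hz
    · exact hv
    · exact absurd hv.symm hne
  have i1 : i.unpair.1 = 1 := by rw [hia, pS, Nat.unpair_pair]
  have i2 : i.unpair.2.unpair.1 = a := by rw [hia, pS, Nat.unpair_pair, Nat.unpair_pair]
  have i3 : i.unpair.2.unpair.2 = a' := by rw [hia, pS, Nat.unpair_pair, Nat.unpair_pair]
  unfold Cx.dcD at hd
  rw [if_pos i1, i2, i3] at hd
  have hlab : (X.B.th k u.unpair.2).2 = l := hfit.1.2.1
  constructor
  · intro hx
    have hnot : ¬ We a' (Nat.pair k (X.f u.unpair.2)) := by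
      intro hw
      exact hu2 (Or.inr ⟨hw, hx _ hlab⟩)
    split_ifs at hd with c1 c2
    · exact hd.symm
    · obtain ⟨v, -, hv2⟩ := c2
      exact absurd ⟨v, hv2⟩ hnot
    · exact absurd hd.symm hne
  · intro hx
    have hnot : ¬ We a (Nat.pair k (X.f u.unpair.2)) := by
      intro hw
      exact hu1 (Or.inr ⟨hw, hx _ hlab⟩)
    split_ifs at hd with c1 c2
    · obtain ⟨v, -, hv2, -⟩ := c1
      exact absurd ⟨v, hv2⟩ hnot
    · exact hd.symm
    · exact absurd hd.symm hne

end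

end S5
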