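import Pool.Agent.helper96.S5.SpecR

/-! Row s5:TKF (MP_0b485e_lc): every permanently admissible ticket is given infinitely often -/

set_option autoImplicit false

namespace S5

open PF

noncomputable section

open Classical

theorem TKF_row (hFAI : FAI_stmt) : TKF_stmt := by
  intro B k hG h l hl hC t0
  obtain ⟨n, hn⟩ := tkc_surj (h, l)
  have key : ∀ t0, ∃ t, t0 ≤ t ∧ B.tA k t (hst (B.tA k) t) n := by
    intro t0
    obtain ⟨t, ht, hp⟩ := hG.h1 ((List.range h.length).filter fun i => ent h i ≠ 0)
      (fun i hi => by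
        rw [List.mem_filter] at hi
        exact hC i (List.mem_range.1 hi.1) (by simpa using hi.2)) t0
    refine ⟨t, ht, ?_⟩
    unfold BD.tA
    rw [hn]
    refine ⟨hl, fun i hi hne => hp i ?_⟩
    rw [List.mem_filter]
    exact ⟨List.mem_range.2 hi, by simpa using hne⟩
  obtain ⟨t, ht, hs⟩ := hFAI (B.tA k) n key t0
  refine ⟨t, ht, ?_⟩
  unfold BD.th
  rw [hs, Nat.add_sub_cancel, hn]

end

end S5
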